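import Pool.Agent.Helper11_Rado.Select
import Pool.Agent.Helper11_Rado.Lattice

/-!
# Squad RDO (MP_b7794d_co): the constant 0.917 for families of sets which lie in a disc of diameter `d`
(helper7)

Unit discs with centres `c i`, union `Un c`, `k z` = a nearest centre of `z`.  Hexagonal lattice of
minimal distance `s = 59/15 < 4` with random position and rotation; the disc of `k z` is selected for the
lattice points `z` in the union; a conflict of `z` and `z + s e` (the two discs overlap) forces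
`⟨c (k z) - z, e⟩ ≥ (s - 2) / 2` at one of the two ends, and by Kneser's lemma and the rotation this happens
for at most the fraction (part of the unit disc beyond `(s - 2) / 2`) of the pairs.
Rows: theorem `Pool.Agent.RDO.HNN.xxx : XxxStmt` with the statements of the column `uses` as
hypotheses; any row may take any other row as a hypothesis.  All integrals are `∫⁻`, all volumes `ℝ≥0∞`.
-/

set_option autoImplicit false

open MeasureTheory Module Submodule
open scoped ENNReal Pointwise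

namespace Pool.Agent.RDO

/-- the plane -/
abbrev P2 : Type := EuclideanSpace ℝ (Fin 2)

/-- the unit vector with the angle `θ` -/
noncomputable def ev (θ : ℝ) : P2 := !₂[Real.cos θ, Real.sin θ]

/-- the union of the closed unit discs -/
def Un {n : ℕ} (c : Fin n → P2) : Set P2 := ⋃ i, Metric.closedBall (c i) 1

/-- `k z` is a centre nearest to `z` -/
structure Near {n : ℕ} (c : Fin n → P2) (k : P2 → Fin n) : Prop where
  meas : Measurable k
  near : ∀ z i, dist z (c (k z)) ≤ dist z (c i)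

/-- the points which look at their centre in the direction `θ` from a distance at least `q` -/
def Aw {n : ℕ} (c : Fin n → P2) (k : P2 → Fin n) (q θ : ℝ) : Set P2 :=
  {z | z ∈ Un c ∧ q ≤ inner ℝ (c (k z) - z) (ev θ)}

/-- the points `z` in conflict with `z + w`: the discs of `k z` and of `k (z + w)` overlap -/
def Zc {n : ℕ} (c : Fin n → P2) (k : P2 → Fin n) (w : P2) : Set P2 :=
  {z | z ∈ Un c ∧ z + w ∈ Un c ∧ dist (c (k z)) (c (k (z + w))) < 2}

/-- the part of the unit disc beyond the height `q` -/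
def Cap (q : ℝ) : Set P2 := {x | x ∈ Metric.closedBall (0 : P2) 1 ∧ q ≤ x 0}

/-- NCM (small): a nearest centre can be chosen measurably.  `k z` = the least index which minimizes
`dist z (c i)`; `{z | k z = i}` is given by finitely many inequalities between continuous functions. -/
def NcmStmt : Prop := ∀ (n : ℕ) (c : Fin (n + 1) → P2), ∃ k : P2 → Fin (n + 1), Near c k

/-- KNE (medium): Kneser's lemma for discs.

Proof.  `r = 0` is clear, let `r > 0`.  `W i = {z ∈ closedBall (c i) 1 | ∀ j, dist z (c i) ≤ dist z (c j) and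
∀ j < i, dist z (c i) < dist z (c j)}`: measurable, disjoint, the union of the `W i` is the union of the
discs (least index of a nearest centre).  `φ i z = c i + r (z - c i)`; `φ i '' W i ⊆ closedBall (c i) r` and
`volume (φ i '' W i) = r ^ 2 volume (W i)` (`Measure.addHaar_image_homothety` or `addHaar_smul`).  The
images are disjoint: let `i < j`, `z ∈ W i`, `z' ∈ W j`, `y = φ i z = φ j z'`.  Then
`dist y (c j) ≥ dist z (c j) - dist z y = dist z (c j) - (1 - r) dist z (c i) ≥ r dist z (c i) = dist y (c i)` and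
`dist y (c i) ≥ dist z' (c i) - (1 - r) dist z' (c j) > r dist z' (c j) = dist y (c j)`, a contradiction.
`r ^ 2 ∑ volume (W i) = ∑ volume (φ i '' W i) = volume (⋃ φ i '' W i) ≤ volume (⋃ closedBall (c i) r)`. -/
def KneStmt : Prop :=
  ∀ (n : ℕ) (c : Fin n → P2) (r : ℝ), 0 ≤ r → r ≤ 1 →
    ENNReal.ofReal (r ^ 2) * volume (Un c) ≤ volume (⋃ i, Metric.closedBall (c i) r)

/-- DOM (medium, uses KNE): the distance to the nearest centre is dominated by the distance to the
centre in one disc.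

Proof.  Let `ρ z = dist z (c (k z))`, so for `0 ≤ r` `{z ∈ Un c | r < ρ z} = Un c \ ⋃ closedBall (c i) r`.
(1) For `0 ≤ r ≤ 1` by KNE `π volume {z ∈ Un c | r < ρ z} ≤ π (1 - r ^ 2) volume (Un c) =
volume (Un c) volume {x ∈ closedBall 0 1 | r < ‖x‖}` (`EuclideanSpace.volume_closedBall` for `Fin 2`:
the area is `π r ^ 2`); for `r < 0` it is `volume (closedBall 0 1) = π`, for `r > 1` both sides are `0`
(`ρ ≤ 1` on `Un c`).
(2) The same with `r ≤ ρ z` and `r ≤ ‖x‖`: intersection of the sets for `r - 1 / (m + 1)`, continuity from above,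
on both sides (or: `volume {x | ‖x‖ = r} = 0` on the right side).
(3) `Ψ` monotone and nonnegative: `{u | t < Ψ u}` is an upper set of `ℝ`, so it is `∅`, `univ`, `Ici r` or `Ioi r`,
and `π volume {z ∈ Un c | t < Ψ (ρ z)} ≤ volume (Un c) volume {x ∈ closedBall 0 1 | t < Ψ ‖x‖}`.
(4) `lintegral_eq_lintegral_meas_lt` (layer cake) on both sides. -/
def DomStmt : Prop :=
  ∀ (n : ℕ) (c : Fin n → P2) (k : P2 → Fin n), Near c k → ∀ Ψ : ℝ → ℝ, Monotone Ψ →
    (∀ u, 0 ≤ Ψ u) →
    ENNReal.ofReal Real.pi * ∫⁻ z in Un c, ENNReal.ofReal (Ψ (dist z (c (k z)))) ≤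
      volume (Un c) * ∫⁻ x in Metric.closedBall (0 : P2) 1, ENNReal.ofReal (Ψ ‖x‖)

/-- ROT (small): for a vector `w` the measure of the angles in a period with `⟨w, e_θ⟩ ≥ q` depends only on
the length of `w`.  `w = ‖w‖ e_φ`, `⟨w, e_θ⟩ = ‖w‖ cos (θ - φ)`, and the measure of a periodic set in an
interval of length `2 π` does not depend on the interval
(`Function.Periodic.intervalIntegral_add_eq` for the indicator, or for `∫⁻`). -/
def RotStmt : Prop :=
  ∀ (q : ℝ) (w : P2), volume {θ : ℝ | θ ∈ Set.Ioc 0 (2 * Real.pi) ∧ q ≤ inner ℝ w (ev θ)} =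
    volume {θ : ℝ | θ ∈ Set.Ioc 0 (2 * Real.pi) ∧ q ≤ ‖w‖ * Real.cos θ}

/-- RCP (small): rotation invariance of the volume of the cap.  The linear map `x ↦ (⟨x, e_θ⟩, ⟨x, e_(θ+π/2)⟩)`
is an isometry of the plane (build it as a `LinearIsometryEquiv`, e.g. from an orthonormal basis), so it
preserves the volume, and it maps this set onto `Cap q`. -/
def RcpStmt : Prop :=
  ∀ (q θ : ℝ), volume {x : P2 | x ∈ Metric.closedBall (0 : P2) 1 ∧ q ≤ inner ℝ x (ev θ)} =
    volume (Cap q)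

/-- ANG (medium, uses DOM, ROT, RCP): the mean of the volume of `Aw` over the angles.

Proof.  Fubini (`Aw` is the section of a measurable set of pairs `(θ, z)`; `lintegral_lintegral_swap` for
indicators): `∫⁻ θ, volume (Aw θ) = ∫⁻ z in Un c, volume {θ | q ≤ ⟨c (k z) - z, e_θ⟩} = ∫⁻ z in Un c, Ψ (ρ z)` by ROT
with `Ψ u = volume {θ ∈ Ioc 0 2π | q ≤ max u 0 * cos θ}` (at most `2 π`; as a real number), `ρ z = dist z (c (k z))`.
`Ψ` is monotone: `q > 0`, so `cos θ > 0` if `q ≤ max u 0 * cos θ`.  DOM.  Then back: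
`∫⁻ x in closedBall 0 1, Ψ ‖x‖ = ∫⁻ x in closedBall 0 1, volume {θ | q ≤ ⟨x, e_θ⟩} =
∫⁻ θ in Ioc 0 2π, volume {x ∈ closedBall 0 1 | q ≤ ⟨x, e_θ⟩} = 2 π volume (Cap q)` by ROT, Fubini, RCP. -/
def AngStmt : Prop :=
  ∀ (n : ℕ) (c : Fin n → P2) (k : P2 → Fin n), Near c k → ∀ q : ℝ, 0 < q →
    ENNReal.ofReal Real.pi * ∫⁻ θ in Set.Ioc 0 (2 * Real.pi), volume (Aw c k q θ) ≤
      volume (Un c) * (ENNReal.ofReal (2 * Real.pi) * volume (Cap q))

/-- CPA (small): the area of the cap.  By Fubini (`EuclideanSpace.volume_preserving_..` to `ℝ × ℝ` or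
`Fin 2 → ℝ`) it is at most `∫ x in q..1, 2 √(1 - x ^ 2) ≤ ∫ x in q..1, 2 √2 √(1 - x) = (4 √2 / 3) (1 - q)^(3/2)`;
`1 - x ^ 2 = (1 - x) (1 + x) ≤ 2 (1 - x)`; the primitive of `√(1 - x)` is `-(2/3) (1 - x) √(1 - x)`. -/
def CpaStmt : Prop :=
  ∀ q : ℝ, 0 ≤ q → q ≤ 1 →
    volume (Cap q) ≤ ENNReal.ofReal (4 * √2 / 3 * ((1 - q) * √(1 - q)))

/-- CNF (small): one end of a conflict looks at its centre in the direction of the other end.

Proof.  Let `w = s e`, `e = ev θ`, `z ∈ Zc c k w`, `q = (s - 2) / 2`.  `s = ⟨w, e⟩ = ⟨c (k z) - z, e⟩ +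
⟨c (k (z + w)) - c (k z), e⟩ + ⟨(z + w) - c (k (z + w)), e⟩`, the middle term is at most `2` (Cauchy-Schwarz), so
`q ≤ ⟨c (k z) - z, e⟩` or `q ≤ ⟨c (k (z + w)) - (z + w), -e⟩`, and `-e = ev (θ + π)`.  So
`Zc c k w ⊆ Aw θ ∪ (translate by -w of Aw (θ + π))`, `volume (Zc c k w) ≤ volume (Aw θ) + volume (Aw (θ + π))`.
Integrate over a period; `θ ↦ volume (Aw θ)` is `2 π`-periodic.  (Measurability of `θ ↦ volume (Aw θ)`: a section
of a measurable set of pairs; `lintegral_add_left`.) -/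
def CnfStmt : Prop :=
  ∀ (n : ℕ) (c : Fin n → P2) (k : P2 → Fin n), Near c k → ∀ s : ℝ,
    ∫⁻ θ in Set.Ioc 0 (2 * Real.pi), volume (Zc c k (s • ev θ)) ≤
      2 * ∫⁻ θ in Set.Ioc 0 (2 * Real.pi), volume (Aw c k ((s - 2) / 2) θ)

/-- RTA (small): a good rotation.  The function `F θ = volume (Zc (s ev θ))` is measurable and `2 π`-periodic;
the integral over a period of `F θ + F (θ + π / 3) + F (θ + 2 π / 3)` is three times that of `F`; some value is
at most the mean (`exists_setLAverage_le` or `exists_le_lintegral`; if the integral of `F` is finite; it is,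
as `volume (Un c) < ∞`). -/
def RtaStmt : Prop :=
  ∀ (n : ℕ) (c : Fin n → P2) (k : P2 → Fin n), Near c k → ∀ s : ℝ, ∃ θ : ℝ,
    ENNReal.ofReal (2 * Real.pi) * (volume (Zc c k (s • ev θ)) +
      volume (Zc c k (s • ev (θ + Real.pi / 3))) + volume (Zc c k (s • ev (θ + 2 * Real.pi / 3)))) ≤
      3 * ∫⁻ φ in Set.Ioc 0 (2 * Real.pi), volume (Zc c k (s • ev φ))

/-- LAT (medium): selection by the hexagonal lattice.

Proof.  `b` = the basis `s ev θ`, `s ev (θ + π / 3)` (`Helper11_Rado.exists_basis`), the area of the fundamental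
parallelogram is `s ^ 2 |cos θ sin (θ + π/3) - sin θ cos (θ + π/3)| = s ^ 2 sin (π/3) = √3 / 2 * s ^ 2`.
`Helper11_Rado.exists_congruent_points b W` for `W = Un c \ (Zc v1 ∪ Zc v2 ∪ Zc v3)`, `v1 = s ev θ`,
`v2 = s ev (θ + π/3)`, `v3 = s ev (θ + 2π/3) = v2 - v1` (measurable, bounded): `X ⊆ W`, and
`volume (Un c) ≤ volume W + ∑ volume (Zc vi)`.  Let `x ≠ y` in `X`, `y - x = m v1 + n v2` with
`m ^ 2 + m n + n ^ 2 ≥ 1`, `dist x y ^ 2 = s ^ 2 (m ^ 2 + m n + n ^ 2)`.  If it is `≥ 3` then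
`dist x y ≥ √3 s ≥ 4` and the centres have a distance `≥ 4 - 1 - 1`.  If it is `2`: impossible.
If it is `1` then `y - x = ± vi` for some `i`, say
`y = x + vi` (the claim is symmetric): `x ∉ Zc vi` and `x, y ∈ Un c`, so the distance is `≥ 2`. -/
def LatStmt : Prop :=
  ∀ (n : ℕ) (c : Fin n → P2) (k : P2 → Fin n), Near c k → ∀ s θ : ℝ, 4 ≤ √3 * s →
    ∃ X : Finset P2, (∀ x ∈ X, ∀ y ∈ X, x ≠ y → 2 ≤ dist (c (k x)) (c (k y))) ∧
      volume (Un c) ≤ (X.card : ℝ≥0∞) * ENNReal.ofReal (√3 / 2 * s ^ 2) +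
        (volume (Zc c k (s • ev θ)) + volume (Zc c k (s • ev (θ + Real.pi / 3))) +
          volume (Zc c k (s • ev (θ + 2 * Real.pi / 3))))

/-- DSC (small, uses NCM, ANG, CPA, CNF, RTA, LAT): the theorem for unit discs.

Proof.  `n = 0` is clear.  `s = 59 / 15`, `q = (s - 2) / 2 = 29 / 30`, `k` from NCM, `θ` from RTA, `X` from LAT
(`√3 * 59 / 15 ≥ 4`), `S = X.image k` (`k` is injective on `X`: `dist (c (k x)) (c (k y)) ≥ 2 > 0`).  With `A = volume (Un c)`:
`2 π ∑ Zc ≤ 3 ∫ Zc ≤ 6 ∫ Aw`, `π ∫ Aw ≤ A 2 π volume (Cap q)`, so `∑ Zc ≤ (6 / π) A volume (Cap q) ≤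
A * 6 / π * (4 √2 / 3) / (30 √30) = A * 4 / (15 π √15)`.  So
`A (1 - 4 / (15 π √15)) ≤ |X| √3 / 2 (59 / 15) ^ 2`, and
`(917 / 1000) (√3 / 2) (59 / 15) ^ 2 = 12.2863.. ≤ 4 π (1 - 4 / (15 π √15)) = 4 π - 16 / (15 √15) = 12.2909..`. -/
def DscStmt : Prop :=
  ∀ (n : ℕ) (c : Fin n → P2), ∃ S : Finset (Fin n),
    (∀ i ∈ S, ∀ j ∈ S, i ≠ j → 2 ≤ dist (c i) (c j)) ∧
      917 / 1000 * (volume (Un c)).toReal ≤ 4 * Real.pi * S.card

/-- MAI (small, uses DSC): the theorem.

Proof.  `c i = (2 / d) • m i`; `S` from DSC: `dist (m i) (m j) ≥ d`, so the interiors of `K i`, `K j` (contained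
in the open discs of radius `d / 2`, `interior_closedBall`) are disjoint.  `⋃ K i ⊆ (d / 2) • Un c`, so
`volume (⋃ K i) ≤ (d / 2) ^ 2 volume (Un c)` (`Measure.addHaar_smul`).
`Helper11_Rado.volume_biUnion_of_disjoint_interior`. -/
def MaiStmt : Prop :=
  ∀ (n : ℕ) (K : Fin n → Set P2) (a p d : ℝ),
    0 < d →
    (∀ i, Convex ℝ (K i) ∧ IsCompact (K i) ∧
      (volume (K i)).toReal = a ∧
      (MeasureTheory.Measure.hausdorffMeasure 1 (frontier (K i))).toReal = p ∧
      Metric.diam (K i) = d) →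
    (∀ i, ∃ m : P2, K i ⊆ Metric.closedBall m (d / 2)) →
    ∃ S : Finset (Fin n),
      (S : Set (Fin n)).Pairwise (fun i j => Disjoint (interior (K i)) (interior (K j))) ∧
      917 / 1000 * (a / (Real.pi * d ^ 2)) * (volume (⋃ i, K i)).toReal ≤
        (volume (⋃ i ∈ S, K i)).toReal

end Pool.Agent.RDO
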